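import Pool.Agent.Lib_MP_f31343.BenoistFull

/-!
# Benoist's theorem for local geometric fibrations

Let `H ≤ G` be linear reductive groups such that `𝔭_G` is not the sum of `𝔭_H` and the noncompact
part of the centre of `G` (for `G` semisimple this means `𝔭_H ≠ 𝔭_G`, that is, `G/H` is not compact).
If every `X ∈ 𝔭_G` which is conjugate to `-X` (under the group `K₀`) is `K`-conjugate to an element
of `𝔭_H` then `G/H` has no local geometric fibration.

The hypothesis is Benoist's condition: let `𝔞` be a maximal abelian subspace of `𝔭_G` which contains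
a maximal abelian subspace `𝔞_H` of `𝔭_H`, and let `𝔟 ⊆ 𝔞` be the fixed points of the opposition
involution of a Weyl chamber; then `𝔟` is contained in `w 𝔞_H` for an element `w` of the Weyl group.
Benoist (1996) proved that for `G` semisimple only virtually abelian discrete groups act properly on
`G/H` under this condition, and that `G/H` has no compact quotients unless it is compact.
-/

open Matrix

namespace Pool.Agent.Results.MP_f31343_gt.BenoistObstruction

open F31343

theorem result {ι : Type*} [Fintype ι] [DecidableEq ι] (G H : LinRed ι) (hHG : H.grp ≤ G.grp)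
    (hne : ∃ X ∈ G.𝔭, ∀ Z ∈ noncompactCentre G, X - Z ∉ H.𝔭)
    (hb : ∀ X ∈ G.𝔭, (∃ k ∈ K₀ G, k.valᵀ * X * k.val = -X) →
      ∃ k ∈ G.K, k.valᵀ * X * k.val ∈ H.𝔭) : IsEmpty (LocalGeometricFibration G H) :=
  noFib_benoist_full hHG hne hb

end Pool.Agent.Results.MP_f31343_gt.BenoistObstruction
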