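import Pool.Agent.Lib_MP_f31343_dis.Main

/-!
# A reductive homogeneous space with local geometric fibrations and without compact quotients

`G = SL(2, ℝ)³ ⋊ ℤ/3` (cyclic permutation of the factors, as `6 × 6` matrices with blocks in
`SL(2, ℝ)` in the block positions `(c + m, c)`), `H = {(h, h, h')}`.  The space `G/H` has
three components, on which `G₀ = SL(2, ℝ)³` acts as on `SL(2, ℝ)` by `g . u = g_i u g_j⁻¹`,
`(i, j) = (1, 2), (2, 3), (3, 1)`.

* The complement `W = {(X, X/2, 0)}` of all the spaces `Ad(k) 𝔭_H`, `k ∈ K`, gives a local geometric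
  fibration.
* For a discrete group `Γ` acting properly discontinuously and cocompactly the displacements
  `μ_i(γ)` of the three components of `γ ∈ Γ ∩ G₀` satisfy, up to a permutation of the indices,
  `μ_1 - μ_2 → ∞`, `μ_2 - μ_3 → ∞`; this is impossible by the growth of orbits in the hyperbolic
  plane.
-/

namespace Pool.Agent.Results.MP_f31343_gt.FibrationWithoutQuotient

open F31343 F31343D

theorem result : ∃ G H : LinRed (Fin 3 × Fin 2),
    (∀ g : GL (Fin 3 × Fin 2) ℝ, g ∈ G.grp ↔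
      ∃ (m : Fin 3) (x : Fin 3 → Matrix (Fin 2) (Fin 2) ℝ), (∀ r, (x r).det = 1) ∧
        ∀ i j, g.val i j = if i.1 = j.1 + m then x i.1 i.2 j.2 else 0) ∧
    (∀ g : GL (Fin 3 × Fin 2) ℝ, g ∈ H.grp ↔
      ∃ x : Fin 3 → Matrix (Fin 2) (Fin 2) ℝ, (∀ r, (x r).det = 1) ∧ x 0 = x 1 ∧
        ∀ i j, g.val i j = if i.1 = j.1 then x i.1 i.2 j.2 else 0) ∧
    Nonempty (LocalGeometricFibration G H) ∧ ¬ AdmitsCompactQuotients G H := by
  refine ⟨bigG, subH, fun g => ?_, fun g => ?_, exists_fibration, no_compact_quotient⟩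
  · constructor
    · rintro ⟨m, x, hx, hg⟩
      exact ⟨m, x, hx, fun i j => by rw [hg]; rfl⟩
    · rintro ⟨m, x, hx, hg⟩
      exact ⟨m, x, hx, by ext i j; rw [hg]; rfl⟩
  · constructor
    · rintro ⟨x, hx, hx', hg⟩
      exact ⟨x, hx, hx', fun i j => by rw [hg, bm_apply, add_zero]⟩
    · rintro ⟨x, hx, hx', hg⟩
      exact ⟨x, hx, hx', by ext i j; rw [hg, bm_apply, add_zero]⟩

end Pool.Agent.Results.MP_f31343_gt.FibrationWithoutQuotient
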