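import Pool.Agent.Lib_MP_f31343_h.Main

/-!
# The homogeneous space `H^{4,2} = O(4,3)/O(4,2)` has no compact quotients

It has a geometric fibration (even a global one), so the answer to Q1 is negative.

Index type `Fin 4 ⊕ Fin 3`; `fromBlocks 1 0 0 (-1)` is `diag(1,1,1,1,-1,-1,-1)`, and
`Pi.single (Sum.inr 2) 1` is the last basis vector.
-/

namespace Pool.Agent.Results.MP_f31343_gt.H42NoCompactQuotient

open Matrix F31343 F31343H

theorem result : ∃ G H : LinRed (Fin 4 ⊕ Fin 3),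
    (∀ g : GL (Fin 4 ⊕ Fin 3) ℝ, g ∈ G.grp ↔
      g.valᵀ * fromBlocks 1 0 0 (-1) * g.val = fromBlocks 1 0 0 (-1)) ∧
    (∀ g : GL (Fin 4 ⊕ Fin 3) ℝ, g ∈ H.grp ↔
      g ∈ G.grp ∧ g.val *ᵥ Pi.single (Sum.inr 2) 1 = Pi.single (Sum.inr 2) 1) ∧
    (∃ F : LocalGeometricFibration G H, F.U = G.grp) ∧
    ¬ AdmitsCompactQuotients G H :=
  ⟨O43, O42, fun _ => mem_O43,
    fun _ => mem_O42.trans ⟨fun h => ⟨mem_O43.mpr h.1, h.2⟩, fun h => ⟨mem_O43.mp h.1, h.2⟩⟩,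
    exists_fib_global, not_admitsCompactQuotients⟩

end Pool.Agent.Results.MP_f31343_gt.H42NoCompactQuotient
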