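import Pool.Agent.Lib_MP_f31343.Two11

/-!
# Local geometric fibrations for all reductive subgroups of `SO(n, 2)` and `SU(2k, 2)`

Let `𝕜` be `ℝ` or `ℂ`, and let `G` be a linear reductive group whose symmetric part `𝔭_G` is that of
`U(n, 2; 𝕜)`: the space `𝕜^n ⊗ 𝕜^2` of the matrices `off Z` with blocks `0, Z, Z^*, 0`, where `Z` is
an `n × 2` matrix over `𝕜`, transported to real matrices by a star representation `ρ` (the
identity for `𝕜 = ℝ`, and for instance `F31343.realifyStar` for `𝕜 = ℂ`). Examples of such `G` are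
`O(n, 2)`, `SO(n, 2)`, `SO₀(n, 2)` and `U(n, 2)`, `SU(n, 2)`; for `O(n, 2)` and `U(n, 2)` see
`F31343.groupO_hyp` and `F31343.groupU_hyp`.

Let `H ≤ G` be a linear reductive subgroup with `𝔭_H ≠ 0` (`H` is not compact) and `𝔭_H ≠ 𝔭_G` (`G/H`
is not compact), and let `n ≥ 3` be even or `𝕜 = ℝ` (that is, the conjugation of `𝕜` is trivial).
If `G/H` has a local geometric fibration then `n` is even and

* either `𝔭_H = 𝕜^n ⊗ u` for a unit vector `u` of `𝕜^2`: up to conjugation in `K` this is the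
  symmetric part of `O(n, 1)` resp. `U(n, 1)`;
* or `𝔭_H` consists of the matrices with columns `x`, `J x` for an antilinear isometry `J` of `𝕜^n`
  with `J^2 = -1`: this is the symmetric part of `U(n/2, 1)` resp. `Sp(n/2, 1)`.

In both cases `G/H` has standard compact quotients.
-/

open Matrix

namespace Pool.Agent.Results.MP_f31343_gt.RankTwo

open F31343

theorem result {𝕜 ι : Type*} [RCLike 𝕜] [Fintype ι] [DecidableEq ι] {n : ℕ} (hn : 3 ≤ n)
    (h𝕜 : Even n ∨ ∀ z : 𝕜, Star.star z = z)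
    (ρ : Matrix (Fin n ⊕ Fin 2) (Fin n ⊕ Fin 2) 𝕜 →⋆ₐ[ℝ] Matrix ι ι ℝ) (G H : LinRed ι)
    (hG : ∀ X, X ∈ G.𝔭 ↔ ∃ Z : Matrix (Fin n) (Fin 2) 𝕜, X = ρ (off Z))
    (hHG : H.grp ≤ G.grp) (hne : H.𝔭 ≠ ⊥) (hne' : H.𝔭 ≠ G.𝔭)
    (hF : Nonempty (LocalGeometricFibration G H)) :
    Even n ∧ (IsLine {Z : Matrix (Fin n) (Fin 2) 𝕜 | ρ (off Z) ∈ H.𝔭} ∨
      IsQuat {Z : Matrix (Fin n) (Fin 2) 𝕜 | ρ (off Z) ∈ H.𝔭}) := by
  obtain ⟨F⟩ := hF
  exact rank_two hn h𝕜 ρ hG hHG hne hne' F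

end Pool.Agent.Results.MP_f31343_gt.RankTwo
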